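import Pool.Agent.Helper17.QD.Glue
import Pool.Agent.Helper68.QC.Cal

/-!
# Project QD, glue: module FUS (the Fuchsian state)
-/

set_option autoImplicit false

open Filter Topology Matrix Set Metric MeasureTheory
open scoped ComplexConjugate ComplexOrder ENNReal

namespace Pool.Agent.Helper94.QL

open Pool.Agent.Helper17.QD Pool.Agent.Helper35.PM
open Pool.Agent.Helper68.QC (nq Bel InvB Intw)
open Pool.Agent.Helper20.QD (Fuch cj IsSU D DD SS dz dzb mob den)

private lemma bel0 : Bel 0 (fun _ => 0) := ⟨measurable_const, fun z => by simp⟩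

private lemma nq0 (hUNI : Pool.Agent.Helper68.QC.StUNI) (z : ℂ) : nq (fun _ => 0) z = z := by
  have h := hUNI 0 zero_lt_one (fun _ => 0) bel0 (Homeomorph.refl ℂ) rfl rfl ∅ finite_empty
    (Pool.Agent.Helper68.QC.sol_zero isClosed_empty.isOpen_compl
      differentiableOn_id (Filter.Eventually.of_forall fun _ => rfl))
  rw [← h]
  rfl

theorem hFUS (hUNI : Pool.Agent.Helper68.QC.StUNI) : StFUS := by
  refine ⟨nq0 hUNI, ?_⟩
  intro Γ _ σ hσ
  refine ⟨hσ, le_refl 0, zero_lt_one, bel0, fun _ _ => rfl, fun γ => ?_, fun γ => ?_⟩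
  · exact Filter.Eventually.of_forall fun z => by simp
  · refine ⟨fun z => ?_, fun z _ => ?_, Iff.rfl, fun _ => ?_⟩
    · rw [nq0 hUNI]
    · rw [nq0 hUNI, nq0 hUNI]
    · rw [nq0 hUNI]

end Pool.Agent.Helper94.QL
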